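import Mathlib

/-! N7b: assembly of `exists_net_thick`, helper31 -/

set_option autoImplicit false
open Matrix MeasureTheory Filter

namespace Pool.Agent.helper21.WB.NN

/-- `exp (a D - b exp (c D)) → 0` -/
theorem tendsto_dexp (a b c : ℝ) (hb : 0 < b) (hc : 0 < c) :
    Tendsto (fun D : ℝ => Real.exp (a * D - b * Real.exp (c * D))) atTop (nhds 0) := by
  rw [Real.tendsto_exp_comp_nhds_zero]
  have h1 : ∀ᶠ D : ℝ in atTop, (a + 1) * D ≤ b * Real.exp (c * D) := by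
    have h := (Real.tendsto_exp_div_pow_atTop 1)
    have h2 : Tendsto (fun D : ℝ => Real.exp (c * D) / (c * D) ^ 1) atTop atTop :=
      h.comp (tendsto_id.const_mul_atTop hc)
    filter_upwards [h2.eventually_ge_atTop ((|a| + 1) / (b * c)), eventually_gt_atTop 0] with D h3 h4
    rw [pow_one, div_le_div_iff₀ (by positivity) (by positivity)] at h3
    have h5 : (|a| + 1) * D ≤ b * Real.exp (c * D) := by
      have : c * ((|a| + 1) * D) ≤ c * (b * Real.exp (c * D)) := by nlinarith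
      exact le_of_mul_le_mul_left this hc
    nlinarith [le_abs_self a]
  refine tendsto_atBot_mono' atTop (?_ : (fun D => a * D - b * Real.exp (c * D)) ≤ᶠ[atTop]
    (fun D : ℝ => -D)) tendsto_neg_atTop_atBot
  filter_upwards [h1] with D hD
  linarith

theorem exists_D0 (C₁ K l : ℝ) (hl : 0 < l) : ∃ D₀ : ℝ, 40 ≤ D₀ ∧ ∀ D, D₀ ≤ D →
    2 * C₁ * Real.exp (-(l / 200 * Real.exp (3 / 40 * D))) *
      (Real.exp (C₁ * D) + 2 * Real.exp (3 * D)) ≤ 1 / 40 * Real.exp (-K * D) := by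
  have h1 := tendsto_dexp (C₁ + K) (l / 200) (3 / 40) (by positivity) (by norm_num)
  have h2 := tendsto_dexp (3 + K) (l / 200) (3 / 40) (by positivity) (by norm_num)
  have h3 : Tendsto (fun D : ℝ => 2 * C₁ * (Real.exp ((C₁ + K) * D - l / 200 * Real.exp (3 / 40 * D)) +
      2 * Real.exp ((3 + K) * D - l / 200 * Real.exp (3 / 40 * D)))) atTop (nhds 0) := by
    have := (h1.add (h2.const_mul 2)).const_mul (2 * C₁)
    simpa using this
  obtain ⟨D₀, hD₀⟩ := (h3.eventually_le_const (show (0:ℝ) < 1 / 40 by norm_num)).exists_forall_of_atTop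
  refine ⟨max 40 D₀, le_max_left _ _, fun D hD => ?_⟩
  have h := hD₀ D ((le_max_right _ _).trans hD)
  have e1 : Real.exp ((C₁ + K) * D - l / 200 * Real.exp (3 / 40 * D)) =
      Real.exp (C₁ * D) * Real.exp (K * D) * Real.exp (-(l / 200 * Real.exp (3 / 40 * D))) := by
    rw [← Real.exp_add, ← Real.exp_add]; congr 1; ring
  have e2 : Real.exp ((3 + K) * D - l / 200 * Real.exp (3 / 40 * D)) =
      Real.exp (3 * D) * Real.exp (K * D) * Real.exp (-(l / 200 * Real.exp (3 / 40 * D))) := by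
    rw [← Real.exp_add, ← Real.exp_add]; congr 1; ring
  rw [e1, e2] at h
  have h5 : Real.exp (-K * D) * Real.exp (K * D) = 1 := by
    rw [← Real.exp_add, show -K * D + K * D = 0 by ring, Real.exp_zero]
  have h6 : 0 < Real.exp (-K * D) := Real.exp_pos _
  calc 2 * C₁ * Real.exp (-(l / 200 * Real.exp (3 / 40 * D))) *
      (Real.exp (C₁ * D) + 2 * Real.exp (3 * D))
      = Real.exp (-K * D) * (2 * C₁ * (Real.exp (C₁ * D) * Real.exp (K * D) *
        Real.exp (-(l / 200 * Real.exp (3 / 40 * D))) + 2 * (Real.exp (3 * D) * Real.exp (K * D) *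
        Real.exp (-(l / 200 * Real.exp (3 / 40 * D)))))) := by
        have : Real.exp (-K * D) * (2 * C₁ * (Real.exp (C₁ * D) * Real.exp (K * D) *
          Real.exp (-(l / 200 * Real.exp (3 / 40 * D))) + 2 * (Real.exp (3 * D) * Real.exp (K * D) *
          Real.exp (-(l / 200 * Real.exp (3 / 40 * D)))))) = (Real.exp (-K * D) * Real.exp (K * D)) *
          (2 * C₁ * Real.exp (-(l / 200 * Real.exp (3 / 40 * D))) *
          (Real.exp (C₁ * D) + 2 * Real.exp (3 * D))) := by ring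
        rw [this, h5, one_mul]
    _ ≤ Real.exp (-K * D) * (1 / 40) := by gcongr
    _ = 1 / 40 * Real.exp (-K * D) := by ring

/-- choice of `ε` -/
theorem exists_eps (δ' w : ℝ) (hδ : 0 < δ') (hw : 0 ≤ w) : ∃ ε : ℝ, 0 < ε ∧ ε ≤ 1 ∧
    ε ^ (1 / 5 : ℝ) ≤ δ' ∧ w * ε ≤ 1 / 1000 := by
  refine ⟨min (min 1 (δ' ^ 5)) (1 / (1000 * (w + 1))), by positivity,
    (min_le_left _ _).trans (min_le_left _ _), ?_, ?_⟩
  · have h1 : min (min 1 (δ' ^ 5)) (1 / (1000 * (w + 1))) ≤ δ' ^ 5 :=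
      (min_le_left _ _).trans (min_le_right _ _)
    have h0 : 0 ≤ min (min 1 (δ' ^ 5)) (1 / (1000 * (w + 1))) := by positivity
    calc min (min 1 (δ' ^ 5)) (1 / (1000 * (w + 1))) ^ (1 / 5 : ℝ) ≤ (δ' ^ 5) ^ (1 / 5 : ℝ) := by
          gcongr
      _ = δ' := by
          rw [← Real.rpow_natCast, ← Real.rpow_mul hδ.le]; norm_num
  · have h1 : min (min 1 (δ' ^ 5)) (1 / (1000 * (w + 1))) ≤ 1 / (1000 * (w + 1)) := min_le_right _ _
    calc w * min (min 1 (δ' ^ 5)) (1 / (1000 * (w + 1))) ≤ w * (1 / (1000 * (w + 1))) := by gcongr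
      _ ≤ 1 / 1000 := by
          rw [mul_one_div, div_le_div_iff₀ (by positivity) (by norm_num)]; nlinarith

/-- the edge bound: pure arithmetic -/
theorem edge_arith {v l t e w : ℝ} {M : ℕ} (hM : 198 ≤ M) (hv : 0 < v) (hl : 0 < l)
    (hN : (M : ℝ) + 2 ≤ l * v) (ht : l ^ 2 * t ≤ 1 / 1000) (ht0 : 0 ≤ t)
    (hw : l ^ 2 * w * e ≤ 1 / 1000) (hw0 : 0 ≤ w) (he : 0 ≤ e) :
    ((M : ℝ) + 2) * (M + 1) / 2 / v * ((t + Real.pi ^ 2 / 6 / (M / v * (11 / 5)) ^ 2) + e * w) ≤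
      9 / 10 * (v / 5) := by
  have hM' : (198 : ℝ) ≤ M := by exact_mod_cast hM
  have hpi : Real.pi ^ 2 ≤ 9.88 := by
    have h1 := Real.pi_lt_d4
    have h0 := Real.pi_pos
    nlinarith
  have h1 : ((M : ℝ) + 2) * (M + 1) / 2 / v ≤ l ^ 2 * v / 2 := by
    rw [div_div, div_le_div_iff₀ (by positivity) (by norm_num)]
    have : ((M : ℝ) + 2) * (M + 1) ≤ (l * v) * (l * v) := by nlinarith
    nlinarith
  have hq : ((M : ℝ) + 2) * (M + 1) ≤ 1.0203 * M ^ 2 := by nlinarith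
  have h2 : ((M : ℝ) + 2) * (M + 1) / 2 / v * (Real.pi ^ 2 / 6 / (M / v * (11 / 5)) ^ 2) ≤
      0.1757 * v := by
    have e1 : ((M : ℝ) + 2) * (M + 1) / 2 / v * (Real.pi ^ 2 / 6 / (M / v * (11 / 5)) ^ 2) =
        ((((M : ℝ) + 2) * (M + 1)) * Real.pi ^ 2) / (12 * (11 / 5) ^ 2 * M ^ 2) * v := by
      field_simp
      ring
    rw [e1]
    gcongr
    rw [div_le_iff₀ (by positivity)]
    calc (((M : ℝ) + 2) * (M + 1)) * Real.pi ^ 2 ≤ (1.0203 * (M : ℝ) ^ 2) * 9.88 := by gcongr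
      _ ≤ 0.1757 * (12 * (11 / 5) ^ 2 * (M : ℝ) ^ 2) := by
        have : (0:ℝ) ≤ (M:ℝ)^2 := by positivity
        nlinarith
  have h3 : ((M : ℝ) + 2) * (M + 1) / 2 / v * t ≤ v / 2000 := by
    calc ((M : ℝ) + 2) * (M + 1) / 2 / v * t ≤ l ^ 2 * v / 2 * t := by gcongr
      _ = (l ^ 2 * t) * v / 2 := by ring
      _ ≤ (1 / 1000) * v / 2 := by gcongr
      _ = v / 2000 := by ring
  have h4 : ((M : ℝ) + 2) * (M + 1) / 2 / v * (e * w) ≤ v / 2000 := by
    calc ((M : ℝ) + 2) * (M + 1) / 2 / v * (e * w) ≤ l ^ 2 * v / 2 * (e * w) := by gcongr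
      _ = (l ^ 2 * w * e) * v / 2 := by ring
      _ ≤ (1 / 1000) * v / 2 := by gcongr
      _ = v / 2000 := by ring
  calc _ = ((M : ℝ) + 2) * (M + 1) / 2 / v * t +
        ((M : ℝ) + 2) * (M + 1) / 2 / v * (Real.pi ^ 2 / 6 / (M / v * (11 / 5)) ^ 2) +
        ((M : ℝ) + 2) * (M + 1) / 2 / v * (e * w) := by ring
    _ ≤ v / 2000 + 0.1757 * v + v / 2000 := by gcongr
    _ ≤ 9 / 10 * (v / 5) := by nlinarith

end Pool.Agent.helper21.WB.NN
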