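import Pool.Agent.helper21.WB.Basic

/-! PART N (nets from random points): definitions.  helper31 -/

set_option autoImplicit false
open Matrix MeasureTheory

namespace Pool.Agent.helper21.WB.NN

/-- no nontrivial element of `Γ` moves `y` by at most `r` -/
def Th (Γ : Subgroup GLI) (r : ℝ) : Set X := {y | ∀ γ ∈ Γ, γ ≠ 1 → r < hd y (act γ y)}

/-- the points some `Γ`-translate of which lies in `A` -/
def Sat (Γ : Subgroup GLI) (A : Set X) : Set X := {y | ∃ γ ∈ Γ, act γ y ∈ A}

/-- closed balls -/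
def bl0 (x : X) (r : ℝ) : Set X := {y | hd x y ≤ r}

/-- the lens of two points -/
def Lens (x y : X) : Set X := {z | hd x z ≤ hd x y - 1 / 20 ∧ hd z y ≤ hd x y - 1 / 20}

/-- normalised measure on a fundamental domain -/
noncomputable def nu (F : Set X) : Measure X := (μ F)⁻¹ • μ.restrict F

/-- the distribution of `N` random points -/
noncomputable def PN (F : Set X) (N : ℕ) : Measure (Fin N → X) := Measure.pi (fun _ => nu F)

/-- relative positions of pairs of random points which may give an edge of the relative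
neighbourhood graph -/
def Q (Γ : Subgroup GLI) (D : ℝ) {N : ℕ} (x : Fin N → X) : Set (Fin N × Fin N × GLI) :=
  {e | e.1 < e.2.1 ∧ e.2.2 ∈ Γ ∧ hd (x e.1) (act e.2.2 (x e.2.1)) ≤ D ∧
    (x e.1 ∈ Th Γ (12 * D) → ∀ c, c ≠ e.1 → c ≠ e.2.1 →
      x c ∉ Sat Γ (Lens (x e.1) (act e.2.2 (x e.2.1))))}

open Classical in
/-- bound for the number of pairs containing a bad point -/
noncomputable def W (Γ : Subgroup GLI) (D : ℝ) (Z : Finset X) (m : ℝ) {N : ℕ} (x : Fin N → X) :
    ENNReal :=
  ∑ z ∈ Z, (if z ∉ Th Γ (12 * D) ∨ ∀ a, x a ∉ Sat Γ (bl0 z (D / 40)) then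
     ENNReal.ofReal m + 2 * ∑ a, (if x a ∈ Sat Γ (bl0 z D) then 1 else 0) else 0)

/-- cylindrical coordinates around the first axis -/
noncomputable def Psi (p : ℝ × (Fin 3 → ℝ)) : X :=
  Fin.cons (Real.sqrt (1 + ∑ i, p.2 i ^ 2) * Real.sinh p.1) p.2

end Pool.Agent.helper21.WB.NN
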