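import Pool.Agent.helper31.WB.N7a
import Pool.Agent.helper31.WB.N7b
import Pool.Agent.helper51.WB.N0
import Pool.Agent.helper51.WB.N4
import Pool.Agent.helper87.WB.LensVol
import Pool.Agent.helper22.WB.N3
import Pool.Agent.helper67.WB.N5

/-! N7c: assembly of `exists_net_thick`, helper31 -/

set_option autoImplicit false
open Matrix MeasureTheory Filter

namespace Pool.Agent.helper21.WB.NN

/-- selection of a good configuration (first moment method) -/
theorem select {Ω : Type*} [MeasurableSpace Ω] (P : Measure Ω) [IsProbabilityMeasure P]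
    {f g : Ω → ENNReal} (hf : Measurable f) (hg : Measurable g) {a b : ℝ} (ha : 0 < a) (hb : 0 < b)
    (h1 : ∫⁻ x, f x ∂P ≤ ENNReal.ofReal (9 / 10 * a))
    (h2 : ∫⁻ x, g x ∂P ≤ ENNReal.ofReal (1 / 20 * b)) :
    ∃ x, f x ≤ ENNReal.ofReal a ∧ g x ≤ ENNReal.ofReal b := by
  have ha' : ENNReal.ofReal a ≠ 0 := by simpa using ha
  have hb' : ENNReal.ofReal b ≠ 0 := by simpa using hb
  have hint : ∫⁻ x, (f x / ENNReal.ofReal a + g x / ENNReal.ofReal b) ∂P ≤ ENNReal.ofReal (19 / 20) := by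
    rw [lintegral_add_left (hf.div_const _)]
    simp only [div_eq_mul_inv]
    rw [lintegral_mul_const _ hf, lintegral_mul_const _ hg]
    have e1 : (∫⁻ x, f x ∂P) * (ENNReal.ofReal a)⁻¹ ≤ ENNReal.ofReal (9 / 10) := by
      rw [← div_eq_mul_inv]
      refine ENNReal.div_le_of_le_mul ?_
      rwa [← ENNReal.ofReal_mul (by norm_num)]
    have e2 : (∫⁻ x, g x ∂P) * (ENNReal.ofReal b)⁻¹ ≤ ENNReal.ofReal (1 / 20) := by
      rw [← div_eq_mul_inv]
      refine ENNReal.div_le_of_le_mul ?_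
      rwa [← ENNReal.ofReal_mul (by norm_num)]
    calc _ ≤ ENNReal.ofReal (9 / 10) + ENNReal.ofReal (1 / 20) := add_le_add e1 e2
      _ = ENNReal.ofReal (19 / 20) := by
        rw [← ENNReal.ofReal_add (by norm_num) (by norm_num)]; norm_num
  obtain ⟨x, hx⟩ := exists_le_lintegral (μ := P)
    ((hf.div_const (ENNReal.ofReal a)).add (hg.div_const (ENNReal.ofReal b))).aemeasurable
  have hx' : f x / ENNReal.ofReal a + g x / ENNReal.ofReal b ≤ 1 := by
    refine (hx.trans hint).trans ?_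
    rw [← ENNReal.ofReal_one]
    exact ENNReal.ofReal_le_ofReal (by norm_num)
  refine ⟨x, ?_, ?_⟩
  · have := le_trans le_self_add hx'
    rwa [ENNReal.div_le_iff ha' ENNReal.ofReal_ne_top, one_mul] at this
  · have := le_trans le_add_self hx'
    rwa [ENNReal.div_le_iff hb' ENNReal.ofReal_ne_top, one_mul] at this

/-- the number of bad points of `Z` -/
theorem card_bad_le {v a C ε b : ℝ} (hv : 0 ≤ v) (hC : 0 ≤ C) (hε0 : 0 < ε) (hε1 : ε ≤ 1)
    (ha0 : 0 ≤ a) (ha : a ≤ ε * v)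
    (hb : b ≤ C * (a + v ^ (4 / 5 : ℝ) * a ^ (1 / 5 : ℝ))) :
    b ≤ 2 * C * v * ε ^ (1 / 5 : ℝ) := by
  have h1 : a ^ (1 / 5 : ℝ) ≤ ε ^ (1 / 5 : ℝ) * v ^ (1 / 5 : ℝ) := by
    rw [← Real.mul_rpow hε0.le hv]
    gcongr
  have h2 : v ^ (4 / 5 : ℝ) * a ^ (1 / 5 : ℝ) ≤ ε ^ (1 / 5 : ℝ) * v := by
    calc v ^ (4 / 5 : ℝ) * a ^ (1 / 5 : ℝ) ≤ v ^ (4 / 5 : ℝ) * (ε ^ (1 / 5 : ℝ) * v ^ (1 / 5 : ℝ)) := by
          gcongr
      _ = ε ^ (1 / 5 : ℝ) * (v ^ (4 / 5 : ℝ) * v ^ (1 / 5 : ℝ)) := by ring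
      _ = ε ^ (1 / 5 : ℝ) * v := by
          rw [← Real.rpow_add_of_nonneg hv (by norm_num) (by norm_num)]; norm_num
  have h3 : ε ≤ ε ^ (1 / 5 : ℝ) := by
    have := Real.rpow_le_rpow_of_exponent_ge hε0 hε1 (show (1 / 5 : ℝ) ≤ 1 by norm_num)
    rwa [Real.rpow_one] at this
  calc b ≤ C * (a + v ^ (4 / 5 : ℝ) * a ^ (1 / 5 : ℝ)) := hb
    _ ≤ C * (ε ^ (1 / 5 : ℝ) * v + ε ^ (1 / 5 : ℝ) * v) := by
        gcongr
        exact ha.trans (by gcongr)
    _ = 2 * C * v * ε ^ (1 / 5 : ℝ) := by ring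

end Pool.Agent.helper21.WB.NN

namespace Pool.Agent.helper21.WB

open NN

open Classical in
theorem exists_net_thick_of (hZ : ZStat) (hS : SepStat) : ∃ η₀ : ℝ, 0 < η₀ ∧ ∀ η : ℝ, 0 < η → η ≤ η₀ → ∀ K : ℝ, 0 < K →
    ∃ D₀ : ℝ, ∀ D : ℝ, D₀ ≤ D →
    ∃ C ε R v₀ : ℝ, 1 ≤ C ∧ 0 < ε ∧ 0 < R ∧ ∀ (Γ : Subgroup GLI) (F : Set X), Lat Γ F →
      v₀ ≤ (μ F).toReal → μ (F ∩ thin Γ R) ≤ ENNReal.ofReal ε * μ F →
    ∃ (n : ℕ) (N : Net Γ η D (1 / (C * (1 + (μ F).toReal)) ^ 2) (10 * D) n),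
      (n : ℝ) ≤ C * (1 + (μ F).toReal) ∧
      (N.E1.ncard : ℝ) ≤ (μ F).toReal / 5 ∧
      (N.B.ncard : ℝ) ≤ Real.exp (- K * D) * (μ F).toReal := by
  obtain ⟨η₁, hη₁, hZ⟩ := hZ
  obtain ⟨η₂, hη₂, hS⟩ := hS
  obtain ⟨t₀, ht₀, hlens⟩ := lens_vol
  have hvt0 : 0 ≤ vb t₀ := ENNReal.toReal_nonneg
  obtain ⟨l, hl0, hl1, hl⟩ : ∃ l : ℝ, 0 < l ∧ l ≤ 1 ∧ l ^ 2 * vb t₀ ≤ 1 / 1000 := by
    refine ⟨1 / (1000 * (1 + vb t₀)), by positivity, ?_, ?_⟩
    · rw [div_le_one (by positivity)]; nlinarith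
    · have h1 : (1 / (1000 * (1 + vb t₀))) ^ 2 * vb t₀ =
          vb t₀ / (1000 * (1 + vb t₀)) ^ 2 := by
        rw [div_pow, one_pow]; ring
      rw [h1, div_le_div_iff₀ (by positivity) (by norm_num)]
      nlinarith
  refine ⟨min 1 (min η₁ η₂), lt_min one_pos (lt_min hη₁ hη₂), fun η hη hle K hK => ?_⟩
  obtain ⟨C₁, hC₁, hZ⟩ := hZ η hη (hle.trans ((min_le_right _ _).trans (min_le_left _ _)))
  obtain ⟨C₂, hC₂, hS⟩ := hS η hη (hle.trans ((min_le_right _ _).trans (min_le_right _ _)))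
  obtain ⟨D₀, hD₀, hD1⟩ := exists_D0 C₁ K l hl0
  refine ⟨D₀, fun D hD => ?_⟩
  have hD40 : 40 ≤ D := hD₀.trans hD
  have hvbD : 0 ≤ vb D := ENNReal.toReal_nonneg
  set w := Real.exp (C₁ * D) + 2 * Real.exp (3 * D) with hw
  have hw0 : 0 < w := by positivity
  obtain ⟨ε, hε0, hε1, hε2, hε3⟩ := exists_eps (1 / 40 * Real.exp (-K * D) / (2 * C₁ * w))
    (l ^ 2 * vb D) (by positivity) (by positivity)
  refine ⟨C₂ + (1 + 2 * C₁), ε, Real.cosh (12 * D + 1) - 1, 300 / l, by linarith, hε0, ?_,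
    fun Γ F hL hv0 hthin => ?_⟩
  · have : 1 < Real.cosh (12 * D + 1) := Real.one_lt_cosh.2 (by linarith)
    linarith
  obtain ⟨Z, hZ1, hZ2, -, hZ4, hZ5⟩ := hZ Γ F hL
  have hS := hS Γ F hL
  have hFtop : μ F ≠ ⊤ := hL.fin.ne
  set v := (μ F).toReal with hvdef
  have hlv : 300 ≤ l * v := by rw [div_le_iff₀ hl0] at hv0; linarith
  have hv : 0 < v := by
    by_contra h
    push Not at h
    nlinarith
  have hofv : ENNReal.ofReal v = μ F := ENNReal.ofReal_toReal hFtop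
  -- the number of points
  obtain ⟨M, hM⟩ : ∃ M : ℕ, ⌊l * v⌋₊ = M + 2 := by
    have : 300 ≤ ⌊l * v⌋₊ := Nat.le_floor (by exact_mod_cast hlv)
    exact ⟨⌊l * v⌋₊ - 2, by omega⟩
  have hM1 : (M : ℝ) + 2 ≤ l * v := by
    have := Nat.floor_le (show 0 ≤ l * v by positivity)
    rw [hM] at this; push_cast at this; exact this
  have hM2 : l * v < M + 3 := by
    have := Nat.lt_floor_add_one (l * v)
    rw [hM] at this; push_cast at this; linarith
  have hM3 : 198 ≤ M := by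
    have : (198 : ℝ) ≤ M := by linarith
    exact_mod_cast this
  have hMpos : (0 : ℝ) < M := by
    have : (198 : ℝ) ≤ M := by exact_mod_cast hM3
    linarith
  -- number of points of `Z`
  have hcard : (Z.card : ℝ) ≤ 2 * C₁ * v :=
    card_Z_le (hZ4 Set.univ MeasurableSet.univ (fun _ _ _ => by simp) Z subset_rfl
      (fun _ _ _ _ => trivial))
  -- thin part
  have hthin' : μ (F \ Th Γ (12 * D)) ≤ ENNReal.ofReal ε * μ F := by
    refine (measure_mono ?_).trans hthin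
    rintro y ⟨hyF, hy⟩
    refine ⟨hyF, ?_⟩
    rw [← compl_Th (by linarith : (0:ℝ) ≤ 12 * D + 1)]
    intro hy'
    exact hy (fun γ hγ h1 => by linarith [hy' γ hγ h1])
  have hbad : ((Z.filter (fun z => z ∉ Th Γ (12 * D))).card : ℝ) ≤ 2 * C₁ * v * ε ^ (1 / 5 : ℝ) := by
    have h := hZ4 (Th Γ (12 * D + 1))ᶜ (measurableSet_Th hL.toDisc _).compl
      (fun γ hγ y => by simp only [Set.mem_compl_iff, act_mem_Th hL.toDisc hγ])
      (Z.filter (fun z => z ∉ Th Γ (12 * D))) (Finset.filter_subset _ _) ?_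
    · refine card_bad_le hv.le (by linarith) hε0 hε1 ENNReal.toReal_nonneg ?_ h
      have h2 : μ (F ∩ (Th Γ (12 * D + 1))ᶜ) ≤ ENNReal.ofReal ε * μ F := by
        rw [compl_Th (by linarith : (0:ℝ) ≤ 12 * D + 1)]; exact hthin
      have h3 := ENNReal.toReal_mono (ENNReal.mul_ne_top ENNReal.ofReal_ne_top hFtop) h2
      rwa [ENNReal.toReal_mul, ENNReal.toReal_ofReal hε0.le] at h3
    · intro z hz y hzy hy
      rw [Finset.mem_filter] at hz
      refine hz.2 (Th_of_near hL.toDisc (x := y) (d := 1 / 2) ?_ (by rw [hd_comm]; exact hzy))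
      have : 12 * D + 2 * (1 / 2) = 12 * D + 1 := by ring
      rw [this]; exact hy
  -- expectations
  have hI := int_lens (by norm_num : (0:ℝ) < 11 / 5) hlens (κ := M / v) (by positivity) D
  obtain ⟨hQm, hQ⟩ := lint_Q hL (by linarith : (1:ℝ) ≤ D) M (by positivity) hε0.le hI hthin'
  obtain ⟨hWm, hW⟩ := lint_W hL (m := Real.exp (C₁ * D)) (by linarith : (1:ℝ) ≤ D)
    (Real.exp_pos _).le Z (M + 1)
  have hQ' : ∫⁻ x, ((Q Γ D x).encard : ENNReal) ∂(PN F (M + 2)) ≤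
      ENNReal.ofReal (9 / 10 * (v / 5)) := by
    refine hQ.trans (ENNReal.ofReal_le_ofReal ?_)
    exact edge_arith hM3 hv hl0 hM1 hl hvt0 (by linarith) hvbD hε0.le
  have hW' : ∫⁻ x, W Γ D Z (Real.exp (C₁ * D)) x ∂(PN F (M + 2)) ≤
      ENNReal.ofReal (1 / 20 * (Real.exp (-K * D) * v)) := by
    refine hW.trans (ENNReal.ofReal_le_ofReal ?_)
    have hvb40 := le_vb (D / 40) (by linarith)
    have hexp : Real.exp (-(((M + 1 : ℕ) : ℝ) / v * vb (D / 40))) ≤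
        Real.exp (-(l / 200 * Real.exp (3 / 40 * D))) := by
      rw [Real.exp_le_exp, neg_le_neg_iff]
      have h1 : l / 2 ≤ ((M + 1 : ℕ) : ℝ) / v := by
        rw [div_le_div_iff₀ (by norm_num) hv]; push_cast; nlinarith
      calc l / 200 * Real.exp (3 / 40 * D) = l / 2 * (Real.exp (3 * (D / 40)) / 100) := by
            rw [show 3 * (D / 40) = 3 / 40 * D by ring]; ring
        _ ≤ ((M + 1 : ℕ) : ℝ) / v * vb (D / 40) := by gcongr
    have hvb3 : vb D ≤ Real.exp (3 * D) := by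
      have h1 := vb_le D (by linarith)
      have hpi : Real.pi ^ 2 / 12 ≤ 1 := by
        have h1 := Real.pi_lt_d4
        have h0 := Real.pi_pos
        nlinarith
      have h2 : 0 < Real.exp (3 * D) := Real.exp_pos _
      nlinarith
    have h2 : Real.exp (C₁ * D) + 2 * (((M + 1 : ℕ) : ℝ) + 1) * vb D / v ≤ w := by
      have h3 : 2 * (((M + 1 : ℕ) : ℝ) + 1) * vb D / v ≤ 2 * Real.exp (3 * D) := by
        rw [div_le_iff₀ hv]; push_cast
        have h4 : ((M : ℝ) + 1 + 1) * vb D ≤ v * Real.exp (3 * D) := by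
          have : (M : ℝ) + 1 + 1 ≤ v := by nlinarith
          gcongr
        nlinarith
      rw [hw]; linarith
    have h3 := hD1 D hD
    have hEpos : 0 < Real.exp (-K * D) := Real.exp_pos _
    calc (((Z.filter (fun z => z ∉ Th Γ (12 * D))).card : ℝ) +
        Z.card * Real.exp (-(((M + 1 : ℕ) : ℝ) / v * vb (D / 40)))) *
        (Real.exp (C₁ * D) + 2 * (((M + 1 : ℕ) : ℝ) + 1) * vb D / v)
        ≤ (2 * C₁ * v * (1 / 40 * Real.exp (-K * D) / (2 * C₁ * w)) +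
          2 * C₁ * v * Real.exp (-(l / 200 * Real.exp (3 / 40 * D)))) * w := by
          gcongr
          exact hbad.trans (by gcongr)
      _ = 1 / 40 * Real.exp (-K * D) * v +
          (2 * C₁ * Real.exp (-(l / 200 * Real.exp (3 / 40 * D))) * w) * v := by
          field_simp
      _ ≤ 1 / 40 * Real.exp (-K * D) * v + (1 / 40 * Real.exp (-K * D)) * v := by
          gcongr
      _ = 1 / 20 * (Real.exp (-K * D) * v) := by ring
  have := isProb_nu hL
  have : IsProbabilityMeasure (PN F (M + 2)) := by unfold PN; infer_instance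
  obtain ⟨x, hx1, hx2⟩ := select (PN F (M + 2)) hQm hWm (by positivity) (by positivity) hQ' hW'
  -- the net
  set C := C₂ + (1 + 2 * C₁) with hC
  have hs1 : 1 ≤ C * (1 + v) := by nlinarith
  have hs : 1 / (C * (1 + v)) ^ 2 ≤ 1 / (C₂ * (1 + v)) ^ 2 := by
    have : 0 < C₂ * (1 + v) := by positivity
    have : C₂ ≤ C := by linarith
    gcongr
  obtain ⟨n, T, hn, -, hE, hB⟩ := det_net (η := η) (D := D) (s := 1 / (C * (1 + v)) ^ 2)
    (m := Real.exp (C₁ * D)) hL.toDisc hη (hle.trans (min_le_left _ _)) hD40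
    (by rw [div_le_one (by positivity)]; nlinarith) (Real.exp_pos _).le Z hZ1 hZ2
    (fun z Z' hZ' h => hZ5 D (by linarith) z Z' hZ' h)
    (fun y hy γ hγ h1 => hs.trans (hS y hy γ hγ h1)) x
  refine ⟨n, T, ?_, ?_, ?_⟩
  · have : (n : ℝ) ≤ (M + 2 : ℕ) + Z.card := by exact_mod_cast hn
    push_cast at this
    nlinarith
  · have h1 : (T.E1.ncard : ENNReal) ≤ ENNReal.ofReal (v / 5) := by
      refine le_trans ?_ hx1
      have h2 : (T.E1.ncard : ℕ∞) ≤ (Q Γ D x).encard := (Set.ncard_le_encard _).trans hE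
      have h3 := ENat.toENNReal_le.2 h2
      simpa using h3
    rwa [← ENNReal.ofReal_natCast, ENNReal.ofReal_le_ofReal_iff (by positivity)] at h1
  · have h1 := hB.trans hx2
    rwa [← ENNReal.ofReal_natCast, ENNReal.ofReal_le_ofReal_iff (by positivity)] at h1

end Pool.Agent.helper21.WB
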