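import Pool.Agent.helper31.WB.NDefs
import Pool.Agent.helper21.WB.LibB5
import Pool.Agent.helper38.WB.N6

/-! N7a: assembly of `exists_net`, helper31 -/

set_option autoImplicit false
open Matrix MeasureTheory

namespace Pool.Agent.helper21.WB.NN

/-- the statement of `exists_Z` -/
def ZStat : Prop := ∃ η₀ : ℝ, 0 < η₀ ∧ ∀ η : ℝ, 0 < η → η ≤ η₀ → ∃ C : ℝ, 1 ≤ C ∧
    ∀ (Γ : Subgroup GLI) (F : Set X), Lat Γ F → ∃ Z : Finset X,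
      (∀ z ∈ Z, z ∉ Deep Γ η) ∧
      (∀ x, x ∉ Deep Γ η → ∃ z ∈ Z, ∃ γ ∈ Γ, hd x (act γ z) ≤ 1) ∧
      (∀ z ∈ Z, ∀ z' ∈ Z, ∀ γ ∈ Γ, hd z (act γ z') ≤ 1 → z = z') ∧
      (∀ E : Set X, MeasurableSet E → (∀ γ ∈ Γ, ∀ y, act γ y ∈ E ↔ y ∈ E) →
        ∀ Z' ⊆ Z, (∀ z ∈ Z', ∀ y, hd z y ≤ 1 / 2 → y ∈ E) →
        (Z'.card : ℝ) ≤ C * ((μ (F ∩ E)).toReal +
          (μ F).toReal ^ (4 / 5 : ℝ) * (μ (F ∩ E)).toReal ^ (1 / 5 : ℝ))) ∧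
      (∀ D : ℝ, 1 ≤ D → ∀ z, ∀ Z' ⊆ Z, (∀ z' ∈ Z', ∃ γ ∈ Γ, hd z (act γ z') ≤ D) →
        (Z'.card : ℝ) ≤ Real.exp (C * D))

/-- the statement of `separation` -/
def SepStat : Prop := ∃ η₀ : ℝ, 0 < η₀ ∧ ∀ η : ℝ, 0 < η → η ≤ η₀ → ∃ C : ℝ, 1 ≤ C ∧
    ∀ (Γ : Subgroup GLI) (F : Set X), Lat Γ F → ∀ y, y ∉ Deep Γ η → ∀ γ ∈ Γ, γ ≠ 1 →
    1 / (C * (1 + (μ F).toReal)) ^ 2 ≤ sm y γ

theorem card_Z_le {F : Set X} {C : ℝ} {Z : Finset X}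
    (h : (Z.card : ℝ) ≤ C * ((μ (F ∩ Set.univ)).toReal +
          (μ F).toReal ^ (4 / 5 : ℝ) * (μ (F ∩ Set.univ)).toReal ^ (1 / 5 : ℝ))) :
    (Z.card : ℝ) ≤ 2 * C * (μ F).toReal := by
  rw [Set.inter_univ, ← Real.rpow_add_of_nonneg ENNReal.toReal_nonneg (by norm_num) (by norm_num)] at h
  norm_num at h
  linarith

end Pool.Agent.helper21.WB.NN

namespace Pool.Agent.helper21.WB

open NN

theorem exists_net_of (hZ : ZStat) (hS : SepStat) : ∃ η₀ : ℝ, 0 < η₀ ∧ ∀ η : ℝ, 0 < η → η ≤ η₀ → ∃ D₀ : ℝ, ∀ D : ℝ, D₀ ≤ D →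
    ∃ C : ℝ, 1 ≤ C ∧ ∀ (Γ : Subgroup GLI) (F : Set X), Lat Γ F →
    ∃ (n : ℕ) (N : Net Γ η D (1 / (C * (1 + (μ F).toReal)) ^ 2) (10 * D) n),
      (n : ℝ) ≤ C * (1 + (μ F).toReal) ∧ N.good = ∅ ∧
      (N.B.ncard : ℝ) ≤ C * (1 + (μ F).toReal) := by
  obtain ⟨η₁, hη₁, hZ⟩ := hZ
  obtain ⟨η₂, hη₂, hS⟩ := hS
  refine ⟨min 1 (min η₁ η₂), lt_min one_pos (lt_min hη₁ hη₂), fun η hη hle => ?_⟩
  obtain ⟨C₁, hC₁, hZ⟩ := hZ η hη (hle.trans ((min_le_right _ _).trans (min_le_left _ _)))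
  obtain ⟨C₂, hC₂, hS⟩ := hS η hη (hle.trans ((min_le_right _ _).trans (min_le_right _ _)))
  refine ⟨40, fun D hD => ⟨C₂ + 2 * C₁ * (1 + Real.exp (C₁ * D)), ?_, fun Γ F hL => ?_⟩⟩
  · have : 0 < Real.exp (C₁ * D) := Real.exp_pos _
    nlinarith
  obtain ⟨Z, hZ1, hZ2, hZ3, hZ4, hZ5⟩ := hZ Γ F hL
  have hS := hS Γ F hL
  have hv : 0 ≤ (μ F).toReal := ENNReal.toReal_nonneg
  set v := (μ F).toReal with hvdef
  have hcard : (Z.card : ℝ) ≤ 2 * C₁ * v :=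
    card_Z_le (hZ4 Set.univ MeasurableSet.univ (fun _ _ _ => by simp) Z subset_rfl
      (fun _ _ _ _ => trivial))
  set e := Real.exp (C₁ * D) with he
  have he0 : 0 < e := Real.exp_pos _
  set C := C₂ + 2 * C₁ * (1 + e) with hC
  have hC2 : C₂ ≤ C := by nlinarith
  have hC1 : 1 ≤ C := hC₂.trans hC2
  have hs1 : 1 ≤ C * (1 + v) := by nlinarith
  have hs : 1 / (C * (1 + v)) ^ 2 ≤ 1 / (C₂ * (1 + v)) ^ 2 := by
    have : 0 < C₂ * (1 + v) := by positivity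
    gcongr
  obtain ⟨n, T, hn, hg, hE, hB⟩ := det_net (η := η) (D := D) (s := 1 / (C * (1 + v)) ^ 2) (m := e)
    hL.toDisc hη (hle.trans (min_le_left _ _)) hD
    (by rw [div_le_one (by positivity)]; nlinarith) he0.le Z hZ1 hZ2
    (fun z Z' hZ' h => hZ5 D (by linarith) z Z' hZ' h)
    (fun y hy γ hγ h1 => hs.trans (hS y hy γ hγ h1)) (fun i : Fin 0 => i.elim0)
  refine ⟨n, T, ?_, ?_, ?_⟩
  · have : (n : ℝ) ≤ Z.card := by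
      have : n ≤ Z.card := by simpa using hn
      exact_mod_cast this
    nlinarith
  · exact Finset.card_eq_zero.1 (Nat.le_zero.1 hg)
  · have hW : W Γ D Z e (fun i : Fin 0 => i.elim0) = ENNReal.ofReal (Z.card * e) := by
      unfold W
      simp only [IsEmpty.forall_iff, or_true, if_true, Finset.univ_eq_empty, Finset.sum_empty,
        mul_zero, add_zero, Finset.sum_const, nsmul_eq_mul]
      rw [ENNReal.ofReal_mul (by positivity), ENNReal.ofReal_natCast]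
    rw [hW, ← ENNReal.ofReal_natCast, ENNReal.ofReal_le_ofReal_iff (by positivity)] at hB
    refine hB.trans ?_
    have h1 : (Z.card : ℝ) * e ≤ 2 * C₁ * v * e := by gcongr
    nlinarith [mul_nonneg hv he0.le, mul_nonneg (mul_nonneg (by linarith : (0:ℝ) ≤ C₁) hv) he0.le,
      mul_nonneg (by linarith : (0:ℝ) ≤ C₁) he0.le, mul_nonneg (by linarith : (0:ℝ) ≤ C₁) hv,
      mul_nonneg (by linarith : (0:ℝ) ≤ C₂) hv]

end Pool.Agent.helper21.WB
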